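import Pool.Agent.H44.DU.Targets2

set_option autoImplicit false

namespace Pool.Agent.H86.DU.L3

open Pool.Agent.H44.DU

theorem pf_L3 (h : T_L1) : T_L3 := by
  intro n S V t m hm hnb y hy hV
  obtain ⟨W, hW⟩ : ∃ W : ℕ → List (Side n), ∀ k, W k = (List.range m).map fun j => (y (k + j)).1 :=
    ⟨_, fun _ => rfl⟩
  have hWs : ∀ k, W k ++ [(y (k + m)).1] = (List.range (m + 1)).map fun j => (y (k + j)).1 := by
    intro k
    rw [List.range_succ, List.map_append, hW]
    rfl
  have hWc : ∀ k, W k ++ [(y (k + m)).1] = (y k).1 :: W (k + 1) := by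
    intro k
    rw [hWs, List.range_succ_eq_map, List.map_cons, List.map_map, hW]
    simp only [add_zero, List.cons.injEq, true_and]
    apply List.map_congr_left
    intro j _
    simp only [Function.comp, Nat.succ_eq_add_one]
    rw [show k + (j + 1) = k + 1 + j by ring]
  have hmem : ∀ k, W k ∈ S.RW V t m := by
    intro k
    refine ⟨by rw [hW]; simp, ?_, (y k).2, by rw [hW]; exact (S.chain_run hy k m).1⟩
    intro r hr
    rw [hW, List.mem_map] at hr
    obtain ⟨j, -, rfl⟩ := hr
    exact hV _
  have key : ∀ k, (∀ x, S.Run t (W k) x → S.Run t (W k ++ [(y (k + m)).1]) x) ∧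
      ∀ r' x, S.Run t (W k ++ [r']) x → r' = (y (k + m)).1 := by
    intro k
    obtain ⟨r, h1, h2⟩ := h n S V t m hm hnb (W k) (hmem k)
    have h3 : (y (k + m)).1 = r := by
      refine h2 _ (y k).2 ?_
      rw [hWs]
      exact (S.chain_run hy k (m + 1)).1
    rw [h3]
    exact ⟨h1, h2⟩
  constructor
  · intro x hx
    obtain ⟨xs, hxs0, hxs⟩ : ∃ xs : ℕ → ℝ, xs 0 = x ∧ ∀ k, xs (k + 1) = S.mv t (y k).1 (xs k) :=
      ⟨fun k => Nat.rec x (fun k z => S.mv t (y k).1 z) k, rfl, fun _ => rfl⟩
    have hrun : ∀ k, S.Run t (W k) (xs k) := by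
      intro k
      induction k with
      | zero =>
        rw [hxs0, hW]
        simpa using hx
      | succ k ih =>
        have h1 := (key k).1 _ ih
        rw [hWc] at h1
        rw [hxs]
        exact h1.2.2
    have hin : ∀ k, S.InJ t (y k).1 (xs k) := by
      intro k
      have h1 := (key k).1 _ (hrun k)
      rw [hWc] at h1
      exact h1.1
    exact ⟨fun k => ((y k).1, xs k), fun k => ⟨hin k, hin (k + 1), (hy k).2.2.1, hxs k⟩, hxs0,
      fun _ => rfl⟩
  · intro y' hy' hj j
    induction j using Nat.strong_induction_on with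
    | _ j ih =>
      rcases Nat.lt_or_ge j m with hjm | hjm
      · exact hj j hjm
      · obtain ⟨k, rfl⟩ : ∃ k, j = k + m := ⟨j - m, by omega⟩
        have h1 := (S.chain_run hy' k (m + 1)).1
        rw [List.range_succ, List.map_append] at h1
        have h2 : (List.range m).map (fun j => (y' (k + j)).1) = W k := by
          rw [hW]
          apply List.map_congr_left
          intro i hi
          rw [List.mem_range] at hi
          exact ih (k + i) (by omega)
        rw [h2] at h1
        exact (key k).2 _ _ h1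

end Pool.Agent.H86.DU.L3
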