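import Pool.Agent.H44.DU.Targets

set_option autoImplicit false

namespace Pool.Agent.H86.DU.X3

open Pool.Agent.H44.DU

lemma fin_set {n : ℕ} (S : Surf n) (V : Set ℝ) (m : ℕ) :
    {w : List (Side n) | w.length = m ∧ ∃ t x, t ∈ V ∧ S.Run t w x}.Finite :=
  (List.finite_length_eq (Side n) m).subset (fun _ hw => hw.1)

theorem pf_X3 : T_X3 := by
  intro n S V m k
  induction k with
  | zero =>
    rw [pow_zero]
    have h1 : {w : List (Side n) | w.length = 0 * m ∧ ∃ t x, t ∈ V ∧ S.Run t w x} ⊆ {[]} := by
      rintro w ⟨hw, -⟩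
      rw [zero_mul] at hw
      exact List.length_eq_zero_iff.mp hw
    calc _ ≤ ({[]} : Set (List (Side n))).ncard := Set.ncard_le_ncard h1 (Set.finite_singleton _)
      _ = 1 := Set.ncard_singleton _
  | succ k ih =>
    rw [pow_succ]
    refine le_trans ?_ (Nat.mul_le_mul_right _ ih)
    rw [← Set.ncard_prod]
    refine Set.ncard_le_ncard_of_injOn (fun w => (w.take (k * m), w.drop (k * m))) ?_ ?_
      ((fin_set S V _).prod (fin_set S V _))
    · rintro w ⟨hw, t, x, ht, hr⟩
      rw [Set.mem_prod]
      refine ⟨⟨?_, t, x, ht, S.run_take hr _⟩, ⟨?_, t, _, ht, S.run_drop hr _⟩⟩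
      · rw [List.length_take, hw, add_mul, one_mul]
        omega
      · rw [List.length_drop, hw, add_mul, one_mul]
        omega
    · intro w _ w' _ h
      simp only [Prod.mk.injEq] at h
      rw [← List.take_append_drop (k * m) w, ← List.take_append_drop (k * m) w', h.1, h.2]

end Pool.Agent.H86.DU.X3
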